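import Pool.Agent.X239.CV.PolyT

/-!
# A memoryless pivot rule which is polynomial on covered polyhedra

Linear programs `max c x`, `A x ≤ b`, `x ≥ 0` with `n` variables and `m` further rows. We give a
memoryless version of the simplex method: the next vertex is computed in polynomial time from
`(A, b, c)` and the current vertex. It follows improving edges on every linear program
(degenerate and unbounded ones included), and the number of its pivots is at most `n` on all linear
programs with an optimum whose polyhedron is `0`-covered, and at most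
`(n + 1) (m + n + 1) ^ e - 1` if the polyhedron is `e`-covered, so that the whole running time in
the bit model is polynomial for every fixed `e`.

Here a polyhedron `P` is `e`-covered (`Covered e P`) if for any two vertices `x`, `y` of a face `F`
of `P`, which are on no common facet of `F`, at most `e` facets of `F` contain neither `x` nor `y`.
This depends only on the combinatorial type of `P`, the coefficients are arbitrary. For example:

* if every `k`-dimensional face of `P` has at most `2 k + e` facets, then `P` is `e`-covered; so
  `e = 0` for combinatorial cubes and products of simplices;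
* if every facet `G` of every face `F` of `P` has a complementary proper face `H` of `F`, such that
  all vertices of `F` lie in `G` or in `H`, then `P` is `0`-covered.

The rule: let `w` be the optimal vertex (or the improving ray) found by an auxiliary
polynomial-time routine, which depends only on `(A, b, c)`; follow an improving edge of the
smallest face containing the current vertex and `w`.
-/

namespace Pool.Agent.Results.MP_4d246d_lc.CoveredPolyhedra

open Pool.Agent.NPC Pool.Agent.X239.CV Pool.Agent.NPC.X239CV

/-- the polyhedron `A x ≤ b`, `x ≥ 0` -/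
def polyhedron {m n : ℕ} (A : Fin m → Fin n → ℚ) (b : Fin m → ℚ) : Set (Fin n → ℝ) :=
  {x | (∀ i, ∑ j, (A i j : ℝ) * x j ≤ b i) ∧ ∀ j, 0 ≤ x j}

/-- the objective function `c x` -/
noncomputable def obj {n : ℕ} (c : Fin n → ℚ) (x : Fin n → ℝ) : ℝ := ∑ j, (c j : ℝ) * x j

/-- rational vectors as real vectors -/
noncomputable def re {n : ℕ} (x : Fin n → ℚ) : Fin n → ℝ := fun j => (x j : ℝ)

/-- `x` and `y` are joined by an edge of `P` on which the objective function increases -/
def ImprovingEdge {n : ℕ} (P : Set (Fin n → ℝ)) (c x y : Fin n → ℚ) : Prop :=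
  IsExposed ℝ P (segment ℝ (re x) (re y)) ∧ obj c (re x) < obj c (re y)

/-- `P` has an unbounded edge at `x`, in the direction `d`, on which the objective function
increases -/
def UnboundedEdge {n : ℕ} (P : Set (Fin n → ℝ)) (c x d : Fin n → ℚ) : Prop :=
  IsExposed ℝ P {z | ∃ t : ℝ, 0 ≤ t ∧ z = re x + t • re d} ∧ 0 < obj c (re d)

/-- The vertices `x 0, …, x N` of `P` are a path of improving edges starting at `v`. It ends at a
vertex maximising the objective function (`d = none`), or at a vertex with an unbounded improving
edge in the direction `e` (`d = some e`). -/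
def IsSimplexPath {n : ℕ} (P : Set (Fin n → ℝ)) (c v : Fin n → ℚ) (N : ℕ)
    (x : ℕ → Fin n → ℚ) (d : Option (Fin n → ℚ)) : Prop :=
  x 0 = v ∧ (∀ k ≤ N, re (x k) ∈ Set.extremePoints ℝ P) ∧
    (∀ k < N, ImprovingEdge P c (x k) (x (k + 1))) ∧
    (d = none → ∀ y ∈ P, obj c y ≤ obj c (re (x N))) ∧
    ∀ e, d = some e → UnboundedEdge P c (x N) e

/-- the input `A`, `b`, `c` and the vertex `v` as a bit string -/
def input {m n : ℕ} (A : Fin m → Fin n → ℚ) (b : Fin m → ℚ) (c v : Fin n → ℚ) : List Bool :=
  bits (List.ofFn fun i => List.ofFn (A i), List.ofFn b, List.ofFn c, List.ofFn v)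

/-- the answer of a rule as a bit string: the next vertex (`Sum.inl y`), or the current vertex is
optimal (`Sum.inr none`), or the direction of an unbounded improving edge (`Sum.inr (some d)`) -/
def answer {n : ℕ} (s : (Fin n → ℚ) ⊕ Option (Fin n → ℚ)) : List Bool :=
  bits (Sum.map List.ofFn (Option.map List.ofFn) s : List ℚ ⊕ Option (List ℚ))

/-- the output `x 0, …, x N` and `d` as a bit string -/
def output {n : ℕ} (N : ℕ) (x : ℕ → Fin n → ℚ) (d : Option (Fin n → ℚ)) : List Bool :=
  bits ((List.range (N + 1)).map (fun k => List.ofFn (x k)), d.map List.ofFn)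

/-- `x 0, …, x N` is the path of the memoryless rule `next` on the linear program `A`, `b`, `c` from
the vertex `v`, and it is a path of the simplex method -/
def Follows (next : List Bool → List Bool) {m n : ℕ} (A : Fin m → Fin n → ℚ) (b : Fin m → ℚ)
    (c v : Fin n → ℚ) (N : ℕ) (x : ℕ → Fin n → ℚ) (d : Option (Fin n → ℚ)) : Prop :=
  IsSimplexPath (polyhedron A b) c v N x d ∧
    (∀ k < N, next (input A b c (x k)) = answer (Sum.inl (x (k + 1)))) ∧
    next (input A b c (x N)) = answer (Sum.inr d)

theorem answer_injective {n : ℕ} : Function.Injective (answer (n := n)) := by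
  intro s t h
  have h1 := bits_injective h
  refine (Function.Injective.sumMap List.ofFn_injective ?_) h1
  exact Option.map_injective List.ofFn_injective

/-- **A memoryless pivot rule, computable in polynomial time, which makes polynomially many steps on
covered polyhedra.** -/
theorem result : ∃ next : List Bool → List Bool, PolyTime next ∧
    -- the rule is a version of the simplex method
    (∀ (m n : ℕ) (A : Fin m → Fin n → ℚ) (b : Fin m → ℚ) (c v : Fin n → ℚ),
      re v ∈ Set.extremePoints ℝ (polyhedron A b) →
      ∃ (N : ℕ) (x : ℕ → Fin n → ℚ) (d : Option (Fin n → ℚ)), Follows next A b c v N x d) ∧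
    -- the number of steps
    (∀ (m n : ℕ) (A : Fin m → Fin n → ℚ) (b : Fin m → ℚ) (c v : Fin n → ℚ) (N : ℕ)
      (x : ℕ → Fin n → ℚ) (d : Option (Fin n → ℚ)) (e : ℕ), Follows next A b c v N x d →
      BddAbove (obj c '' polyhedron A b) → Covered e (polyhedron A b) →
      N + 1 ≤ (n + 1) * (m + n + 1) ^ e) ∧
    -- the running time
    (∀ e : ℕ, ∃ g : List Bool → List Bool, PolyTime g ∧
      ∀ (m n : ℕ) (A : Fin m → Fin n → ℚ) (b : Fin m → ℚ) (c v : Fin n → ℚ) (N : ℕ)
      (x : ℕ → Fin n → ℚ) (d : Option (Fin n → ℚ)), Follows next A b c v N x d →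
      BddAbove (obj c '' polyhedron A b) → Covered e (polyhedron A b) →
      g (input A b c v) = output N x d) ∧
    -- examples of covered polyhedra
    (∀ (m n : ℕ) (A : Fin m → Fin n → ℚ) (b : Fin m → ℚ) (e : ℕ),
      (∀ F, IsFace (polyhedron A b) F → {G | IsFacet (polyhedron A b) F G}.encard ≤
        2 * Module.finrank ℝ (vectorSpan ℝ F) + e) → Covered e (polyhedron A b)) ∧
    ∀ (m n : ℕ) (A : Fin m → Fin n → ℚ) (b : Fin m → ℚ),
      (∀ F, IsFace (polyhedron A b) F → ∀ G, IsFacet (polyhedron A b) F G →
        ∃ H, IsFace (polyhedron A b) H ∧ H ⊂ F ∧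
          ∀ x ∈ (polyhedron A b).extremePoints ℝ, x ∈ F → x ∈ G ∨ x ∈ H) →
      Covered 0 (polyhedron A b) := by
  obtain ⟨next, hpt, hnx⟩ : ∃ next : List Bool → List Bool, PolyTime next ∧
      ∀ (m n : ℕ) (A : Fin m → Fin n → ℚ) (b : Fin m → ℚ) (c v : Fin n → ℚ),
      next (input A b c v) = answer (nxt A b c v) :=
    ⟨fun s => bits (nxtB s), polyTime_nxt, fun m n A b c v => congrArg bits nxtB_inp⟩
  refine ⟨next, hpt, ?_, ?_, ?_, ?_, ?_⟩
  · intro m n A b c v hv
    obtain ⟨N, x, d, h1, h2, h3⟩ := exists_path (c := c) hv
    refine ⟨N, x, d, h1, fun k hk => ?_, ?_⟩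
    · rw [hnx, h2 k hk]
    · rw [hnx, h3]
  · rintro m n A b c v N x d e ⟨h1, h2, -⟩ hb hc
    refine bound (c := c) (v := v) h1 (fun k hk => ?_) hb hc
    have h := h2 k hk
    rw [hnx] at h
    exact answer_injective h
  · intro e
    refine ⟨_, polyTime_run e, ?_⟩
    rintro m n A b c v N x d ⟨h1, h2, h3⟩ hb hc
    have h2' : ∀ k < N, nxt A b c (x k) = Sum.inl (x (k + 1)) := fun k hk => by
      have h := h2 k hk
      rw [hnx] at h
      exact answer_injective h
    have h3' : nxt A b c (x N) = Sum.inr d := by
      rw [hnx] at h3
      exact answer_injective h3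
    have hN := bound (c := c) (v := v) h1 h2' hb hc
    have hL : m + n < (input A b c v).length := by
      have h4 := Y644.QS.le_sz_inp (A := A) (b := b) (c := c) (v := v)
      have h5 : (input A b c v).length = sz (Y644.QS.inp A b c v) := bits_length _
      omega
    have hK : N + 1 ≤ ((input A b c v).length + 1) ^ (e + 1) := by
      refine hN.trans ?_
      rw [pow_succ, mul_comm]
      exact Nat.mul_le_mul (Nat.pow_le_pow_left (by omega) e) (by omega)
    exact congrArg bits (run_path h1.1 h2' h3' hK)
  · intro m n A b e h
    have := covered_of_facets (a := aR A) (b := bR b) (e := e)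
    rw [pol_eq] at this
    exact this h
  · intro m n A b h
    have := covered_of_complement (a := aR A) (b := bR b)
    rw [pol_eq] at this
    exact this h

end Pool.Agent.Results.MP_4d246d_lc.CoveredPolyhedra
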