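import Pool.Agent.X97.SV.PolyT
import Pool.Agent.X97.IT.Path

/-!
# The shadow vertex rule is polynomial on linear programs of bounded incidence treedepth

Linear programs `max c x`, `A x ≤ b`, `x ≥ 0` with `n` variables and `m` further rows. We give a
version of the shadow vertex rule, computable in polynomial time, which follows improving edges on
every linear program (degenerate and unbounded ones included), and which makes less than
`((2 m + 2 n + 4) 16 ^ s) ^ E`, `E = 18 (2 D + 10) ^ (2 D)`, pivots if the matrix `A` has a nested
structure of depth `D` with blocks of size at most `s`: after the deletion of at most one row or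
one column, it decomposes into blocks (without common rows and columns) which have such a structure
of depth `D - 1`; in a structure of depth `0` all blocks have at most `s` rows and columns in total.
The coefficients are arbitrary and the polyhedra need not be bounded, and `c` may be dense. So for
all constants `D` and `C` the whole running time in the bit model is polynomial on the linear
programs with such a structure of depth `D` and blocks of size at most `C log L`.

For `s = 1` this means that the bipartite graph of the nonzero entries of `A` (on the rows and the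
columns) has treedepth at most `D + 1`. Examples are linear programs with a fixed number of rows, or
of columns; `n`-fold, two-stage, tree-fold and multistage linear programs, and four-block linear
programs with a fixed number of linking rows and linking columns. Deletions of rows and columns may
be mixed in any order.

The rule: the auxiliary objective function is `d = ∑ K ^ i r_i`, where `r_i` are the rows which are
tight at the start vertex, and `K` is a large number; the start vertex is the only maximiser of
`d`. The path consists of the maximisers of `d + μ c` for `μ ≥ 0`. The choice of `K` makes sure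
that these maximisers are unique up to finitely many `μ`, and that consecutive ones are adjacent,
although the linear program may be degenerate. The next slope is found by binary search with an
auxiliary polynomial-time routine for linear inequalities.

The number of maximisers: for a block with the columns `X` and the rows `R`, consider all linear
programs whose objective functions depend linearly on `p` parameters, and whose right-hand sides
depend linearly on `q` parameters. We count the sets of tight rows of their unique optimal
solutions. If this number is at most `T` then the optimal solution is described by at most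
`T |R| + T ^ 2` sign conditions, which are bilinear in the parameters; these sign conditions add up
if we take disjoint unions of blocks, and finitely many sign conditions lead to polynomially many
sign vectors, since they are linear in the `(p + 1) q` monomials. If a column is added then the
value of its variable is one more parameter of the right-hand side. If a row is added then its
multiplier is one more parameter of the objective function, and a unique optimal solution with this
row lies on a segment between two unique optimal solutions without it.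
-/

namespace Pool.Agent.Results.MP_4d246d_lc.ShadowTreedepth

open Pool.Agent.NPC

/-- the polyhedron `A x ≤ b`, `x ≥ 0` -/
def polyhedron {m n : ℕ} (A : Fin m → Fin n → ℚ) (b : Fin m → ℚ) : Set (Fin n → ℝ) :=
  {x | (∀ i, ∑ j, (A i j : ℝ) * x j ≤ b i) ∧ ∀ j, 0 ≤ x j}

/-- the objective function `c x` -/
noncomputable def obj {n : ℕ} (c : Fin n → ℚ) (x : Fin n → ℝ) : ℝ := ∑ j, (c j : ℝ) * x j

/-- rational vectors as real vectors -/
noncomputable def re {n : ℕ} (x : Fin n → ℚ) : Fin n → ℝ := fun j => (x j : ℝ)

/-- `x` and `y` are joined by an edge of `P` on which the objective function increases -/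
def ImprovingEdge {n : ℕ} (P : Set (Fin n → ℝ)) (c x y : Fin n → ℚ) : Prop :=
  IsExposed ℝ P (segment ℝ (re x) (re y)) ∧ obj c (re x) < obj c (re y)

/-- `P` has an unbounded edge at `x`, in the direction `d`, on which the objective function
increases -/
def UnboundedEdge {n : ℕ} (P : Set (Fin n → ℝ)) (c x d : Fin n → ℚ) : Prop :=
  IsExposed ℝ P {z | ∃ t : ℝ, 0 ≤ t ∧ z = re x + t • re d} ∧ 0 < obj c (re d)

/-- The vertices `x 0, …, x N` of `P` are a path of improving edges starting at `v`. It ends at a
vertex maximising the objective function (`d = none`), or at a vertex with an unbounded improving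
edge in the direction `e` (`d = some e`). -/
def IsSimplexPath {n : ℕ} (P : Set (Fin n → ℝ)) (c v : Fin n → ℚ) (N : ℕ)
    (x : ℕ → Fin n → ℚ) (d : Option (Fin n → ℚ)) : Prop :=
  x 0 = v ∧ (∀ k ≤ N, re (x k) ∈ Set.extremePoints ℝ P) ∧
    (∀ k < N, ImprovingEdge P c (x k) (x (k + 1))) ∧
    (d = none → ∀ y ∈ P, obj c y ≤ obj c (re (x N))) ∧
    ∀ e, d = some e → UnboundedEdge P c (x N) e

/-- the input `A`, `b`, `c` and the start vertex `v` as a bit string -/
def input {m n : ℕ} (A : Fin m → Fin n → ℚ) (b : Fin m → ℚ) (c v : Fin n → ℚ) : List Bool :=
  bits (List.ofFn fun i => List.ofFn (A i), List.ofFn b, List.ofFn c, List.ofFn v)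

/-- the input of the rule as a bit string: `A`, `b`, `c`, the start vertex `v`, and the current
vertex `u` -/
def position {m n : ℕ} (A : Fin m → Fin n → ℚ) (b : Fin m → ℚ) (c v u : Fin n → ℚ) : List Bool :=
  bits ((List.ofFn fun i => List.ofFn (A i), List.ofFn b, List.ofFn c, List.ofFn v),
    (List.ofFn u : List ℚ))

/-- the answer of a rule as a bit string: the next vertex (`Sum.inl y`), or the current vertex is
optimal (`Sum.inr none`), or the direction of an unbounded improving edge (`Sum.inr (some d)`) -/
def answer {n : ℕ} (s : (Fin n → ℚ) ⊕ Option (Fin n → ℚ)) : List Bool :=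
  bits (Sum.map List.ofFn (Option.map List.ofFn) s : List ℚ ⊕ Option (List ℚ))

/-- the output `x 0, …, x N` and `d` as a bit string -/
def output {n : ℕ} (N : ℕ) (x : ℕ → Fin n → ℚ) (d : Option (Fin n → ℚ)) : List Bool :=
  bits ((List.range (N + 1)).map (fun k => List.ofFn (x k)), d.map List.ofFn)

/-- `x 0, …, x N` is the path of the rule `next` on the linear program `A`, `b`, `c` from the
vertex `v`, and it is a path of the simplex method -/
def Follows (next : List Bool → List Bool) {m n : ℕ} (A : Fin m → Fin n → ℚ) (b : Fin m → ℚ)
    (c v : Fin n → ℚ) (N : ℕ) (x : ℕ → Fin n → ℚ) (d : Option (Fin n → ℚ)) : Prop :=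
  IsSimplexPath (polyhedron A b) c v N x d ∧
    (∀ k < N, next (position A b c v (x k)) = answer (Sum.inl (x (k + 1)))) ∧
    next (position A b c v (x N)) = answer (Sum.inr d)

/-- The columns `X` and the rows `R` of the matrix `A` form a nested structure of depth `D` with
blocks of size at most `s`: there are at most `s` rows and columns in total; or it is the disjoint
union of two such structures, and the rows of each of them have no nonzero entries in the columns
of the other; or one row or one column is added to such a structure of depth `D - 1`. -/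
inductive Nested {m n : ℕ} (A : Fin m → Fin n → ℚ) (s : ℕ) :
    ℕ → Finset (Fin n) → Finset (Fin m) → Prop
  | small (D : ℕ) (X : Finset (Fin n)) (R : Finset (Fin m)) (h : X.card + R.card ≤ s) :
      Nested A s D X R
  | union (D : ℕ) (X₁ X₂ : Finset (Fin n)) (R₁ R₂ : Finset (Fin m)) (hX : Disjoint X₁ X₂)
      (hR : Disjoint R₁ R₂) (h₁ : ∀ i ∈ R₁, ∀ j ∈ X₂, A i j = 0)
      (h₂ : ∀ i ∈ R₂, ∀ j ∈ X₁, A i j = 0) (c₁ : Nested A s D X₁ R₁) (c₂ : Nested A s D X₂ R₂) :
      Nested A s D (X₁ ∪ X₂) (R₁ ∪ R₂)
  | addRow (D : ℕ) (X : Finset (Fin n)) (R : Finset (Fin m)) (i : Fin m) (hi : i ∉ R)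
      (c : Nested A s D X R) : Nested A s (D + 1) X (insert i R)
  | addColumn (D : ℕ) (X : Finset (Fin n)) (R : Finset (Fin m)) (j : Fin n) (hj : j ∉ X)
      (c : Nested A s D X R) : Nested A s (D + 1) (insert j X) R

theorem answer_injective {n : ℕ} : Function.Injective (answer (n := n)) := by
  intro s t h
  have h1 := bits_injective h
  refine (Function.Injective.sumMap List.ofFn_injective ?_) h1
  exact Option.map_injective List.ofFn_injective

theorem nst_of {m n s : ℕ} {A : Fin m → Fin n → ℚ} {D : ℕ} {X : Finset (Fin n)}
    {R : Finset (Fin m)} (h : Nested A s D X R) : X97.IT.Nst (fun i j => (A i j : ℝ)) s D X R := by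
  induction h with
  | small D X R h => exact .small D X R h
  | union D X₁ X₂ R₁ R₂ hX hR h1 h2 _ _ ih1 ih2 =>
    exact .union ih1 ih2 hX hR (fun i hi j hj => by rw [h1 i hi j hj, Rat.cast_zero])
      fun i hi j hj => by rw [h2 i hi j hj, Rat.cast_zero]
  | addRow D X R i hi _ ih => exact .row i hi ih
  | addColumn D X R j hj _ ih => exact .col j hj ih

/-- **The shadow vertex rule, in a version computable in polynomial time, makes polynomially many
steps on all linear programs of bounded incidence treedepth, with blocks of logarithmic size.** -/
theorem result : ∃ next : List Bool → List Bool, PolyTime next ∧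
    -- the rule is a version of the simplex method
    (∀ (m n : ℕ) (A : Fin m → Fin n → ℚ) (b : Fin m → ℚ) (c v : Fin n → ℚ),
      re v ∈ Set.extremePoints ℝ (polyhedron A b) →
      ∃ (N : ℕ) (x : ℕ → Fin n → ℚ) (d : Option (Fin n → ℚ)), Follows next A b c v N x d) ∧
    -- the number of steps
    (∀ (m n : ℕ) (A : Fin m → Fin n → ℚ) (b : Fin m → ℚ) (c v : Fin n → ℚ) (N : ℕ)
      (x : ℕ → Fin n → ℚ) (d : Option (Fin n → ℚ)) (s D : ℕ), Follows next A b c v N x d →
      Nested A s D Finset.univ Finset.univ →
      N < ((2 * m + 2 * n + 4) * 16 ^ s) ^ (18 * (2 * D + 10) ^ (2 * D))) ∧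
    -- the running time
    ∀ D C : ℕ, ∃ g : List Bool → List Bool, PolyTime g ∧
      ∀ (m n : ℕ) (A : Fin m → Fin n → ℚ) (b : Fin m → ℚ) (c v : Fin n → ℚ) (N : ℕ)
      (x : ℕ → Fin n → ℚ) (d : Option (Fin n → ℚ)), Follows next A b c v N x d →
      Nested A (C * Nat.log 2 (input A b c v).length) D Finset.univ Finset.univ →
      g (input A b c v) = output N x d := by
  obtain ⟨next, hpt, hnx⟩ : ∃ next : List Bool → List Bool, PolyTime next ∧
      ∀ (m n : ℕ) (A : Fin m → Fin n → ℚ) (b : Fin m → ℚ) (c v u : Fin n → ℚ),
      next (position A b c v u) = answer (X97.SV.nxt A b c v u) :=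
    ⟨fun s => bits (X97SV.nxtB s), X97SV.polyTime_nxt,
      fun m n A b c v u => congrArg bits (X97SV.nxtB_inp u)⟩
  have hbound : ∀ (m n : ℕ) (A : Fin m → Fin n → ℚ) (b : Fin m → ℚ) (c v : Fin n → ℚ) (N : ℕ)
      (x : ℕ → Fin n → ℚ) (d : Option (Fin n → ℚ)) (s D : ℕ), Follows next A b c v N x d →
      Nested A s D Finset.univ Finset.univ →
      N < ((2 * m + 2 * n + 4) * 16 ^ s) ^ (18 * (2 * D + 10) ^ (2 * D)) := by
    rintro m n A b c v N x d s D ⟨h1, h2, -⟩ hT
    have hv : re v ∈ Set.extremePoints ℝ (polyhedron A b) := by
      rw [← h1.1]; exact h1.2.1 0 (Nat.zero_le _)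
    have h := X97.IT.bound (c := c) (v := v) hv h1.1 (fun k hk => by
      have h := h2 k hk
      rw [hnx] at h
      exact answer_injective h) (nst_of hT)
    rw [show 2 * (m + n + 2) = 2 * m + 2 * n + 4 by ring] at h
    omega
  refine ⟨next, hpt, ?_, hbound, ?_⟩
  · intro m n A b c v hv
    obtain ⟨N, x, d, h1, h2, h3⟩ := X97.SV.exists_path (c := c) hv
    refine ⟨N, x, d, h1, fun k hk => ?_, ?_⟩
    · rw [hnx, h2 k hk]
    · rw [hnx, h3]
  · intro D C
    set E := 18 * (2 * D + 10) ^ (2 * D) with hE
    refine ⟨_, X97SV.polyTime_run ((4 * C + 2) * E), ?_⟩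
    rintro m n A b c v N x d ⟨h1, h2, h3⟩ hT
    have h2' : ∀ k < N, X97.SV.nxt A b c v (x k) = Sum.inl (x (k + 1)) := fun k hk => by
      have h := h2 k hk
      rw [hnx] at h
      exact answer_injective h
    have h3' : X97.SV.nxt A b c v (x N) = Sum.inr d := by
      rw [hnx] at h3
      exact answer_injective h3
    have hN := hbound m n A b c v N x d _ D ⟨h1, h2, h3⟩ hT
    rw [← hE] at hN
    have hL : m + n < (input A b c v).length := by
      have h4 := Y644.QS.le_sz_inp (A := A) (b := b) (c := c) (v := v)
      have h5 : (input A b c v).length = sz (Y644.QS.inp A b c v) := bits_length _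
      omega
    have hK : N + 1 ≤ ((input A b c v).length + 1) ^ ((4 * C + 2) * E) := by
      set L := (input A b c v).length with hLd
      have h4 : 2 ^ Nat.log 2 L ≤ L := Nat.pow_log_le_self 2 (by omega)
      have h5 : 16 ^ (C * Nat.log 2 L) ≤ (L + 1) ^ (4 * C) := by
        calc 16 ^ (C * Nat.log 2 L) = (2 ^ Nat.log 2 L) ^ (4 * C) := by
              rw [show (16 : ℕ) = 2 ^ 4 by norm_num, ← pow_mul, ← pow_mul]
              congr 1
              ring
          _ ≤ (L + 1) ^ (4 * C) := Nat.pow_le_pow_left (by omega) _
      have h6 : 2 * m + 2 * n + 4 ≤ (L + 1) ^ 2 := by nlinarith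
      have h7 : (2 * m + 2 * n + 4) * 16 ^ (C * Nat.log 2 L) ≤ (L + 1) ^ (4 * C + 2) := by
        calc (2 * m + 2 * n + 4) * 16 ^ (C * Nat.log 2 L) ≤ (L + 1) ^ 2 * (L + 1) ^ (4 * C) :=
              Nat.mul_le_mul h6 h5
          _ = (L + 1) ^ (4 * C + 2) := by rw [← pow_add]; congr 1; omega
      have h8 := Nat.pow_le_pow_left h7 E
      rw [← pow_mul] at h8
      omega
    exact congrArg bits (X97SV.run_path h1.1 h2' h3' hK)

end Pool.Agent.Results.MP_4d246d_lc.ShadowTreedepth
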