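import Pool.Agent.X239.GP.PolyT
import Pool.Agent.H642R2.TMSim
set_option autoImplicit false

/-!
# No polynomial-time version of the simplex method is within a factor `L ^ (1 - ε)` of the best one

We consider linear programs `max c x`, `A x ≤ b`, `x ≥ 0` whose polyhedron is bounded, with a start
vertex `v`; `L` is the length of the input. For every `ε > 0` it is `NP`-hard to distinguish the
linear programs on which some monotone path reaches the optimum from `v` with at most `L ^ ε` pivots
from those on which every monotone path needs at least `L ^ (1 - ε)` pivots. So, if `P ≠ NP`, then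
every polynomial-time version of the simplex method, whatever it computes, makes on some linear
programs more than `L ^ (1 - ε)` times as many pivots as necessary.

The linear program of a 3-SAT formula with `m` clauses and `n = 3 m` variables: the first `2 n`
coordinates are in the order polytope of the poset with `n` levels of two incomparable elements, and
a monotone path visits on every level at most one of the two possible intermediate vertices, so it
chooses an assignment. For every clause there are two further coordinates, in a polygon with `2 M`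
sides in which the monotone path along the boundary has `M` edges. This polygon depends linearly on
the first coordinates. It shrinks to a point exactly on the face which is spanned by the three
vertices of the literals of the clause, and then its long boundary can be bypassed. The vertices and
edges of the whole polytope project to vertices and edges (or vertices) of the order polytope, and
every edge is in the boundary of each of the polygons. So a satisfying assignment gives a path with
`2 n` pivots, and if there is none, then one of the polygons never shrinks to a point and every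
monotone path has at least `M` pivots. Finally `M` is a large power of `m`.
-/

namespace Pool.Agent.Results.MP_4d246d_lc.ShortPathsAreHard

open Pool.Agent.NPC Pool.Agent.X239.GP Pool.Agent.NPC.X239GP

/-- the polyhedron `A x ≤ b`, `x ≥ 0` -/
def polyhedron {m n : ℕ} (A : Fin m → Fin n → ℚ) (b : Fin m → ℚ) : Set (Fin n → ℝ) :=
  {x | (∀ i, ∑ j, (A i j : ℝ) * x j ≤ b i) ∧ ∀ j, 0 ≤ x j}

/-- the objective function `c x` -/
noncomputable def obj {n : ℕ} (c : Fin n → ℚ) (x : Fin n → ℝ) : ℝ := ∑ j, (c j : ℝ) * x j

/-- rational vectors as real vectors -/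
noncomputable def re {n : ℕ} (x : Fin n → ℚ) : Fin n → ℝ := fun j => (x j : ℝ)

/-- The vertices `x 0, …, x N` of the polyhedron `P` are a path of the simplex method with `N`
pivots: it starts at `v`, follows improving edges and ends at an optimal vertex. -/
def IsSimplexPath {n : ℕ} (P : Set (Fin n → ℝ)) (c v : Fin n → ℚ) (N : ℕ)
    (x : ℕ → Fin n → ℝ) : Prop :=
  x 0 = re v ∧ (∀ k ≤ N, x k ∈ Set.extremePoints ℝ P) ∧
    (∀ k < N, IsExposed ℝ P (segment ℝ (x k) (x (k + 1))) ∧ obj c (x k) < obj c (x (k + 1))) ∧
    ∀ y ∈ P, obj c y ≤ obj c (x N)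

/-- An optimal vertex can be reached from `v` with `N` pivots. -/
def Reach {m n : ℕ} (A : Fin m → Fin n → ℚ) (b : Fin m → ℚ) (c v : Fin n → ℚ) (N : ℕ) : Prop :=
  ∃ x : ℕ → Fin n → ℝ, IsSimplexPath (polyhedron A b) c v N x

/-- the input `A`, `b`, `c` and the vertex `v` as a bit string -/
def input {m n : ℕ} (A : Fin m → Fin n → ℚ) (b : Fin m → ℚ) (c v : Fin n → ℚ) : List Bool :=
  bits (List.ofFn fun i => List.ofFn (A i), List.ofFn b, List.ofFn c, List.ofFn v)

/-- the list of the vertices `x 0, …, x N` as a bit string -/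
def output {n : ℕ} (N : ℕ) (x : ℕ → Fin n → ℚ) : List Bool :=
  bits ((List.range (N + 1)).map fun k => List.ofFn (x k))

/-- On all linear programs on polytopes, the algorithm `R` finds a path of the simplex method, and
its number of pivots is at most `L ^ (1 - ε)` times the number of pivots of any other such path,
where `L` is the length of the input. -/
def Approximates (R : List Bool → List Bool) (ε : ℝ) : Prop :=
  ∀ (m n : ℕ) (A : Fin m → Fin n → ℚ) (b : Fin m → ℚ) (c v : Fin n → ℚ),
    re v ∈ Set.extremePoints ℝ (polyhedron A b) → Bornology.IsBounded (polyhedron A b) →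
    ∃ (N : ℕ) (x : ℕ → Fin n → ℚ), R (input A b c v) = output N x ∧
      IsSimplexPath (polyhedron A b) c v N (fun k => re (x k)) ∧
      ∀ N', Reach A b c v N' → (N : ℝ) ≤ ((input A b c v).length : ℝ) ^ (1 - ε) * N'

theorem reach_iff {m n : ℕ} {A : Fin m → Fin n → ℚ} {b : Fin m → ℚ} {c v : Fin n → ℚ} {N : ℕ}
    {x : ℕ → Fin n → ℝ} : IsSimplexPath (polyhedron A b) c v N x ↔
      x 0 = re v ∧ MPath (poly A b) (ob c) N x := Iff.rfl

theorem input_eq (φ : List Cl) (M : ℕ) :
    bits (build φ M) = input (mA φ M) (mb φ M) (mc φ M) (Pool.Agent.X239.GP.mv φ M) := by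
  rw [build_eq]; rfl

variable {k : ℕ} {φ : List Cl}

theorem yes_case (hd : Distinct3 φ) (hb : Bounded3 φ) (hφ : φ ≠ []) {M : ℕ} (hM : 0 < M)
    (h : SAT3 φ) : Reach (mA φ M) (mb φ M) (mc φ M) (Pool.Agent.X239.GP.mv φ M)
      (6 * φ.length) := by
  obtain ⟨x, h1, h2⟩ := short_lp hd hb hφ hM h
  exact ⟨x, reach_iff.2 ⟨h1, h2⟩⟩

theorem no_case (hd : Distinct3 φ) (hb : Bounded3 φ) (hφ : φ ≠ []) {M : ℕ} (hM : 2 ≤ M)
    (h : ¬ SAT3 φ) {N : ℕ}
    (hN : Reach (mA φ M) (mb φ M) (mc φ M) (Pool.Agent.X239.GP.mv φ M) N) : M ≤ N := by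
  obtain ⟨x, hx⟩ := hN
  exact long_lp hd hb hφ hM h (reach_iff.1 hx).1 (reach_iff.1 hx).2

theorem rpow_upper {a L : ℝ} {k : ℕ} (hk : 1 ≤ k) (ha : 0 ≤ a) (h : a ^ k ≤ L) :
    a ≤ L ^ (1 / (k : ℝ)) := by
  have hk0 : (k : ℝ) ≠ 0 := by positivity
  calc a = (a ^ k) ^ (1 / (k : ℝ)) := by
        rw [← Real.rpow_natCast, ← Real.rpow_mul ha, mul_one_div_cancel hk0, Real.rpow_one]
    _ ≤ L ^ (1 / (k : ℝ)) := Real.rpow_le_rpow (by positivity) h (by positivity)

theorem rpow_lower {L M : ℝ} {k : ℕ} (hk : 1 ≤ k) (hL : 0 < L) (hM : 0 ≤ M)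
    (h : L ^ (k - 1) ≤ M ^ k) : L ^ (1 - 1 / (k : ℝ)) ≤ M := by
  have hk0 : (k : ℝ) ≠ 0 := by positivity
  have h1 : (L ^ (1 - 1 / (k : ℝ))) ^ k ≤ M ^ k := by
    refine le_trans (le_of_eq ?_) h
    rw [← Real.rpow_natCast, ← Real.rpow_mul hL.le, ← Real.rpow_natCast]
    congr 1
    rw [Nat.cast_sub hk, sub_mul, one_mul, one_div_mul_cancel hk0, Nat.cast_one]
  exact le_of_pow_le_pow_left₀ (by omega) hM h1

/-- **Approximating the shortest monotone path within the factor `L ^ (1 - ε)` is `NP`-hard.** -/
theorem result :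
    (∀ ε : ℝ, 0 < ε → ∀ S : Set (List Bool), InNP S → ∃ f : List Bool → List Bool, PolyTime f ∧
      ∀ s : List Bool, ∃ (m n : ℕ) (A : Fin m → Fin n → ℚ) (b : Fin m → ℚ) (c v : Fin n → ℚ),
        f s = input A b c v ∧ re v ∈ Set.extremePoints ℝ (polyhedron A b) ∧
        Bornology.IsBounded (polyhedron A b) ∧
        (s ∈ S → ∃ N, Reach A b c v N ∧ (N : ℝ) ≤ ((f s).length : ℝ) ^ ε) ∧
        (s ∉ S → ∀ N, Reach A b c v N → ((f s).length : ℝ) ^ (1 - ε) ≤ N)) ∧
    ∀ ε : ℝ, 0 < ε → ∀ R : List Bool → List Bool, PolyTime R → Approximates R ε →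
      ∀ S : Set (List Bool), InNP S → InP S := by
  constructor
  · intro ε hε S hS
    obtain ⟨g, hg, hgp, hgS⟩ := hardPr_SAT3b S hS
    obtain ⟨k, hk1, hkε⟩ : ∃ k : ℕ, 1 ≤ k ∧ 1 / (k : ℝ) ≤ ε := by
      obtain ⟨k, hk⟩ := exists_nat_one_div_lt hε
      exact ⟨k + 1, by omega, by push_cast; exact hk.le⟩
    have hpoly : Poly (fun φ : List Cl => build φ (MM k φ)) :=
      poly_build NPC.Poly.id (upoly_MM NPC.Poly.id k)
    refine ⟨fun s => bits (build (g s) (MM k (g s))), PC.toPolyTime_bits hpoly g hg, fun s => ?_⟩
    obtain ⟨hd, hb, hne⟩ := hgp s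
    have hlen : 1 ≤ (g s).length := List.length_pos_iff.2 hne
    have hM := mm_pos (φ := g s) hk1 hlen
    refine ⟨_, _, mA (g s) (MM k (g s)), mb (g s) (MM k (g s)), mc (g s) (MM k (g s)),
      Pool.Agent.X239.GP.mv (g s) (MM k (g s)), input_eq _ _, start_extreme hne (by omega),
      poly_bounded hne (by omega), fun hs => ?_, fun hs N hN => ?_⟩
    · refine ⟨_, yes_case hd hb hne (by omega) ((hgS s).1 hs), ?_⟩
      rw [bits_length]
      have h1 := length_lower (k := k) hlen
      have h2 : ((6 * (g s).length : ℕ) : ℝ) ≤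
          (sz (build (g s) (MM k (g s))) : ℝ) ^ (1 / (k : ℝ)) :=
        rpow_upper hk1 (by positivity) (by exact_mod_cast h1)
      refine h2.trans (Real.rpow_le_rpow_of_exponent_le ?_ hkε)
      exact_mod_cast sz_pos (build (g s) (MM k (g s)))
    · rw [bits_length]
      have h1 := length_upper hk1 hlen
      have h2 := no_case hd hb hne hM (fun h => hs ((hgS s).2 h)) hN
      have hL : (1 : ℝ) ≤ (sz (build (g s) (MM k (g s))) : ℝ) := by
        exact_mod_cast sz_pos (build (g s) (MM k (g s)))
      have h3 : (sz (build (g s) (MM k (g s))) : ℝ) ^ (1 - 1 / (k : ℝ)) ≤ MM k (g s) :=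
        rpow_lower hk1 (by linarith) (by positivity) (by exact_mod_cast h1)
      refine (Real.rpow_le_rpow_of_exponent_le hL (by linarith)).trans (h3.trans ?_)
      exact_mod_cast h2
  · intro ε hε R hR hap S hS
    obtain ⟨g, hg, hgp, hgS⟩ := hardPr_SAT3b S hS
    obtain ⟨k, hk1, hkε⟩ : ∃ k : ℕ, 1 ≤ k ∧ 2 / (k : ℝ) < ε := by
      obtain ⟨k, hk⟩ := exists_nat_one_div_lt (half_pos hε)
      refine ⟨k + 1, by omega, ?_⟩
      push_cast
      rw [show (2 : ℝ) / (k + 1) = 2 * (1 / (k + 1)) by ring]
      linarith
    have hpoly : Poly (fun φ : List Cl => build φ (MM k φ)) :=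
      poly_build NPC.Poly.id (upoly_MM NPC.Poly.id k)
    have h0 : PC (bits : Y644.QS.Inp → List Bool) (fun x : List Bool => x) (fun G => bits G) := by
      obtain ⟨c, p, h⟩ := (PC.id : PC (bits : Y644.QS.Inp → List Bool) bits (fun G => G))
      exact ⟨c, p, h⟩
    have h1 : PC (fun x : List Bool => x) (fun x : List Bool => x) R :=
      H642R2.TMSim.polyTime_toPC hR
    have h2 : PC (fun x : List Bool => x) (bits : List Bool → List Bool) R :=
      PC.comp (g := fun x => x) (f := R) PC.rawIn h1
    have h3 : Poly (fun x : Y644.QS.Inp => R (bits x)) :=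
      PC.comp (g := R) (f := fun G => bits G) h2 h0
    have h4 : Poly (fun φ : List Cl => unbits (List (List ℚ)) (R (bits (build φ (MM k φ))))) :=
      poly_unbits.comp (h3.comp hpoly)
    have h5 : Poly (fun φ : List Cl => (unbits (List (List ℚ))
        (R (bits (build φ (MM k φ))))).elim false fun l => decide (l.length ≤ MM k φ)) :=
      NPC.Poly.optElim (h := fun (φ : List Cl) l => decide (l.length ≤ MM k φ)) h4
        (NPC.Poly.const _) (NPC.Poly.decide_le (NPC.Poly.length (NPC.Poly.snd NPC.Poly.id))
          (UPoly.toPoly (upoly_MM (NPC.Poly.fst NPC.Poly.id) k)))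
    refine ⟨fun x => [(unbits (List (List ℚ)) (R (bits (build (g x) (MM k (g x)))))).elim false
      fun l => decide (l.length ≤ MM k (g x))], ?_, fun s => ?_⟩
    · have h6 : PC (fun x : List Bool => x) (bits : Bool → List Bool) (fun x =>
          (unbits (List (List ℚ)) (R (bits (build (g x) (MM k (g x)))))).elim false
            fun l => decide (l.length ≤ MM k (g x))) := PC.comp (f := g) h5 hg
      exact PC.toPolyTime (PC.comp (g := fun b => [b]) PC.rawBool h6)
    · obtain ⟨hd, hb, hne⟩ := hgp s
      have hlen : 1 ≤ (g s).length := List.length_pos_iff.2 hne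
      have hM := mm_pos (φ := g s) hk1 hlen
      obtain ⟨N, x, hN, hx, hopt⟩ := hap _ _ (mA (g s) (MM k (g s))) (mb (g s) (MM k (g s)))
        (mc (g s) (MM k (g s))) (Pool.Agent.X239.GP.mv (g s) (MM k (g s)))
        (start_extreme hne (by omega)) (poly_bounded hne (by omega))
      have hL : (1 : ℝ) < (sz (build (g s) (MM k (g s))) : ℝ) := by
        have h6 := length_lower (k := 1) hlen
        have h7 := length_lower (k := k) hlen
        have h8 : 6 ^ 1 ≤ (6 * (g s).length) ^ k :=
          (Nat.pow_le_pow_right (by norm_num) hk1).trans (Nat.pow_le_pow_left (by omega) k)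
        have h9 : 1 < sz (build (g s) (MM k (g s))) := by omega
        exact_mod_cast h9
      beta_reduce
      rw [input_eq, hN]
      unfold output
      rw [unbits_bits, Option.elim_some, List.length_map, List.length_range, List.cons.injEq,
        decide_eq_true_iff]
      simp only [and_true]
      rw [hgS s]
      constructor
      · intro hs
        have h6 := hopt _ (yes_case hd hb hne (by omega) hs)
        rw [← input_eq, bits_length] at h6
        have h7 := length_lower (k := k) hlen
        have h8 : ((6 * (g s).length : ℕ) : ℝ) ≤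
            (sz (build (g s) (MM k (g s))) : ℝ) ^ (1 / (k : ℝ)) :=
          rpow_upper hk1 (by positivity) (by exact_mod_cast h7)
        have h9 : (sz (build (g s) (MM k (g s))) : ℝ) ^ (1 - 1 / (k : ℝ)) ≤ MM k (g s) :=
          rpow_lower hk1 (by linarith) (by positivity) (by
            exact_mod_cast length_upper hk1 hlen)
        have h10 : (N : ℝ) < MM k (g s) := by
          calc (N : ℝ) ≤ (sz (build (g s) (MM k (g s))) : ℝ) ^ (1 - ε) *
                (sz (build (g s) (MM k (g s))) : ℝ) ^ (1 / (k : ℝ)) :=
                h6.trans (mul_le_mul_of_nonneg_left h8 (by positivity))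
            _ = (sz (build (g s) (MM k (g s))) : ℝ) ^ (1 - ε + 1 / (k : ℝ)) := by
                rw [← Real.rpow_add (by linarith)]
            _ < (sz (build (g s) (MM k (g s))) : ℝ) ^ (1 - 1 / (k : ℝ)) := by
                refine Real.rpow_lt_rpow_of_exponent_lt hL ?_
                have : (2 : ℝ) / k = 1 / k + 1 / k := by ring
                linarith
            _ ≤ _ := h9
        have h11 : N < MM k (g s) := by exact_mod_cast h10
        omega
      · intro hs
        by_contra hc
        have h6 := no_case hd hb hne hM hc ⟨_, hx⟩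
        omega

end Pool.Agent.Results.MP_4d246d_lc.ShortPathsAreHard
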