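import Pool.Agent.X239.GZ.PolyT
import Pool.Agent.H642R2.TMSim
set_option autoImplicit false

/-!
# Simplex paths on 0/1 polytopes: no polynomial-time version is within `n ^ (1 - ε)` of the best

We consider linear programs `max c x`, `A x ≤ b`, `x ≥ 0` in `n` variables whose polyhedron is a
0/1 polytope: it is bounded and all its vertices are 0/1 vectors. From every vertex `v` some
monotone path with at most `n` pivots reaches the optimum, and such a path is found in polynomial
time (Black, De Loera, Kafer, Sanità). We show that a factor `n ^ (1 - ε)` cannot be gained over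
this bound: for every `ε > 0` it is `NP`-hard to distinguish the linear programs on 0/1 polytopes
where some monotone path from `v` to the optimum has at most `n ^ ε` pivots from those where each
such path has at least `n ^ (1 - ε)` pivots.

The linear program of a 3-SAT formula with `m` clauses and `3 m` variables: the first `6 m`
coordinates `x` are in the order polytope of the poset with `3 m` levels of two incomparable
elements, and a monotone path visits on every level at most one of the two intermediate vertices, so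
it chooses an assignment. For every clause `j` there are `M` further coordinates `y j` in the cube
`[0, 1] ^ M` with the constraints `y j k - y j l ≤ 1 - a j x`, where `a j x` is the sum of the
positive parts of `±(x (i, 0) - x (i, 1))` over the three literals of the clause. At the vertices
`x` where a literal of the clause is chosen the vertices of the fibre are only the two vectors `0`
and `1`, and one pivot leads from the one to the other. If no literal is ever chosen, then `M`
pivots are needed.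
-/

namespace Pool.Agent.Results.MP_4d246d_lc.ZeroOnePolytopes

open Pool.Agent.NPC
open Pool.Agent.X239.GP (Cl MPath poly ob)
open Pool.Agent.X239.GZ (mA mb mc short_lp long_lp start_extreme poly_bounded all_zero_one)
open Pool.Agent.NPC.X239GZ

/-- the polyhedron `A x ≤ b`, `x ≥ 0` -/
def polyhedron {m n : ℕ} (A : Fin m → Fin n → ℚ) (b : Fin m → ℚ) : Set (Fin n → ℝ) :=
  {x | (∀ i, ∑ j, (A i j : ℝ) * x j ≤ b i) ∧ ∀ j, 0 ≤ x j}

/-- `P` is a 0/1 polytope: it is bounded and all its vertices are 0/1 vectors. -/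
def ZeroOne {n : ℕ} (P : Set (Fin n → ℝ)) : Prop :=
  Bornology.IsBounded P ∧ ∀ x ∈ Set.extremePoints ℝ P, ∀ j, x j = 0 ∨ x j = 1

/-- the objective function `c x` -/
noncomputable def obj {n : ℕ} (c : Fin n → ℚ) (x : Fin n → ℝ) : ℝ := ∑ j, (c j : ℝ) * x j

/-- rational vectors as real vectors -/
noncomputable def re {n : ℕ} (x : Fin n → ℚ) : Fin n → ℝ := fun j => (x j : ℝ)

/-- The vertices `x 0, …, x N` of the polyhedron `P` are a path of the simplex method with `N`
pivots: it starts at `v`, follows improving edges and ends at an optimal vertex. -/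
def IsSimplexPath {n : ℕ} (P : Set (Fin n → ℝ)) (c v : Fin n → ℚ) (N : ℕ)
    (x : ℕ → Fin n → ℝ) : Prop :=
  x 0 = re v ∧ (∀ k ≤ N, x k ∈ Set.extremePoints ℝ P) ∧
    (∀ k < N, IsExposed ℝ P (segment ℝ (x k) (x (k + 1))) ∧ obj c (x k) < obj c (x (k + 1))) ∧
    ∀ y ∈ P, obj c y ≤ obj c (x N)

/-- An optimal vertex can be reached from `v` with `N` pivots. -/
def Reach {m n : ℕ} (A : Fin m → Fin n → ℚ) (b : Fin m → ℚ) (c v : Fin n → ℚ) (N : ℕ) : Prop :=
  ∃ x : ℕ → Fin n → ℝ, IsSimplexPath (polyhedron A b) c v N x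

/-- the input `A`, `b`, `c` and the vertex `v` as a bit string -/
def input {m n : ℕ} (A : Fin m → Fin n → ℚ) (b : Fin m → ℚ) (c v : Fin n → ℚ) : List Bool :=
  bits (List.ofFn fun i => List.ofFn (A i), List.ofFn b, List.ofFn c, List.ofFn v)

/-- the list of the vertices `x 0, …, x N` as a bit string -/
def output {n : ℕ} (N : ℕ) (x : ℕ → Fin n → ℚ) : List Bool :=
  bits ((List.range (N + 1)).map fun k => List.ofFn (x k))

/-- On all linear programs on 0/1 polytopes, the algorithm `R` finds a path of the simplex method,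
and its number of pivots is at most `n ^ (1 - ε)` times the number of pivots of any other such path,
where `n` is the number of variables. -/
def Approximates (R : List Bool → List Bool) (ε : ℝ) : Prop :=
  ∀ (m n : ℕ) (A : Fin m → Fin n → ℚ) (b : Fin m → ℚ) (c v : Fin n → ℚ),
    re v ∈ Set.extremePoints ℝ (polyhedron A b) → ZeroOne (polyhedron A b) →
    ∃ (N : ℕ) (x : ℕ → Fin n → ℚ), R (input A b c v) = output N x ∧
      IsSimplexPath (polyhedron A b) c v N (fun k => re (x k)) ∧
      ∀ N', Reach A b c v N' → (N : ℝ) ≤ (n : ℝ) ^ (1 - ε) * N'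

theorem re_zero {n : ℕ} : re (fun _ : Fin n => (0 : ℚ)) = fun _ => (0 : ℝ) := by
  funext j
  unfold re
  exact Rat.cast_zero

theorem reach_iff {m n : ℕ} {A : Fin m → Fin n → ℚ} {b : Fin m → ℚ} {c v : Fin n → ℚ} {N : ℕ}
    {x : ℕ → Fin n → ℝ} : IsSimplexPath (polyhedron A b) c v N x ↔
      x 0 = re v ∧ MPath (poly A b) (ob c) N x := Iff.rfl

theorem input_eq (φ : List Cl) (M : ℕ) :
    bits (build φ M) = input (mA φ M) (mb φ M) (mc φ M) (fun _ => 0) := by
  rw [build_eq]; rfl

variable {k : ℕ} {φ : List Cl}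

theorem start_mem (hφ : φ ≠ []) (M : ℕ) :
    re (fun _ => (0 : ℚ)) ∈ Set.extremePoints ℝ (polyhedron (mA φ M) (mb φ M)) := by
  rw [re_zero]
  exact start_extreme hφ

theorem zeroOne (hφ : φ ≠ []) (M : ℕ) : ZeroOne (polyhedron (mA φ M) (mb φ M)) :=
  ⟨poly_bounded hφ, fun _ hx j => all_zero_one hφ hx j⟩

theorem yes_case (hd : Distinct3 φ) (hb : Bounded3 φ) (hφ : φ ≠ []) {M : ℕ} (hM : 0 < M)
    (h : SAT3 φ) : Reach (mA φ M) (mb φ M) (mc φ M) (fun _ => 0) (7 * φ.length) := by
  obtain ⟨x, h1, h2⟩ := short_lp hd hb hφ hM h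
  exact ⟨x, reach_iff.2 ⟨h1.trans re_zero.symm, h2⟩⟩

theorem no_case (hd : Distinct3 φ) (hb : Bounded3 φ) (hφ : φ ≠ []) {M : ℕ}
    (h : ¬ SAT3 φ) {N : ℕ}
    (hN : Reach (mA φ M) (mb φ M) (mc φ M) (fun _ => 0) N) : M ≤ N := by
  obtain ⟨x, hx⟩ := hN
  exact long_lp hd hb hφ h ((reach_iff.1 hx).1.trans re_zero) (reach_iff.1 hx).2

theorem rpow_upper {a L : ℝ} {k : ℕ} (hk : 1 ≤ k) (ha : 0 ≤ a) (h : a ^ k ≤ L) :
    a ≤ L ^ (1 / (k : ℝ)) := by
  have hk0 : (k : ℝ) ≠ 0 := by positivity
  calc a = (a ^ k) ^ (1 / (k : ℝ)) := by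
        rw [← Real.rpow_natCast, ← Real.rpow_mul ha, mul_one_div_cancel hk0, Real.rpow_one]
    _ ≤ L ^ (1 / (k : ℝ)) := Real.rpow_le_rpow (by positivity) h (by positivity)

theorem rpow_lower {L M : ℝ} {k : ℕ} (hk : 1 ≤ k) (hL : 0 < L) (hM : 0 ≤ M)
    (h : L ^ (k - 1) ≤ M ^ k) : L ^ (1 - 1 / (k : ℝ)) ≤ M := by
  have hk0 : (k : ℝ) ≠ 0 := by positivity
  have h1 : (L ^ (1 - 1 / (k : ℝ))) ^ k ≤ M ^ k := by
    refine le_trans (le_of_eq ?_) h
    rw [← Real.rpow_natCast, ← Real.rpow_mul hL.le, ← Real.rpow_natCast]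
    congr 1
    rw [Nat.cast_sub hk, sub_mul, one_mul, one_div_mul_cancel hk0, Nat.cast_one]
  exact le_of_pow_le_pow_left₀ (by omega) hM h1

theorem nv_pos (hφ : 1 ≤ φ.length) : 1 < nv k φ := by
  unfold nv
  omega

theorem est_upper (hk : 1 ≤ k) (hφ : 1 ≤ φ.length) :
    ((7 * φ.length : ℕ) : ℝ) ≤ (nv k φ : ℝ) ^ (1 / (k : ℝ)) :=
  rpow_upper hk (by positivity) (by exact_mod_cast length_lower (k := k) hφ)

theorem est_lower (hk : 1 ≤ k) (hφ : 1 ≤ φ.length) :
    (nv k φ : ℝ) ^ (1 - 1 / (k : ℝ)) ≤ MM k φ := by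
  have h : (0 : ℝ) < nv k φ := by exact_mod_cast (zero_lt_one.trans (nv_pos hφ))
  exact rpow_lower hk h (by positivity) (by exact_mod_cast length_upper hk hφ)

/-- **On 0/1 polytopes, approximating the shortest monotone path within the factor `n ^ (1 - ε)`
is `NP`-hard.** -/
theorem result :
    (∀ ε : ℝ, 0 < ε → ∀ S : Set (List Bool), InNP S → ∃ f : List Bool → List Bool, PolyTime f ∧
      ∀ s : List Bool, ∃ (m n : ℕ) (A : Fin m → Fin n → ℚ) (b : Fin m → ℚ) (c v : Fin n → ℚ),
        f s = input A b c v ∧ re v ∈ Set.extremePoints ℝ (polyhedron A b) ∧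
        ZeroOne (polyhedron A b) ∧
        (s ∈ S → ∃ N, Reach A b c v N ∧ (N : ℝ) ≤ (n : ℝ) ^ ε) ∧
        (s ∉ S → ∀ N, Reach A b c v N → (n : ℝ) ^ (1 - ε) ≤ N)) ∧
    ∀ ε : ℝ, 0 < ε → ∀ R : List Bool → List Bool, PolyTime R → Approximates R ε →
      ∀ S : Set (List Bool), InNP S → InP S := by
  constructor
  · intro ε hε S hS
    obtain ⟨g, hg, hgp, hgS⟩ := hardPr_SAT3b S hS
    obtain ⟨k, hk1, hkε⟩ : ∃ k : ℕ, 1 ≤ k ∧ 1 / (k : ℝ) ≤ ε := by
      obtain ⟨k, hk⟩ := exists_nat_one_div_lt hε
      exact ⟨k + 1, by omega, by push_cast; exact hk.le⟩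
    have hpoly : Poly (fun φ : List Cl => build φ (MM k φ)) :=
      poly_build NPC.Poly.id (upoly_MM NPC.Poly.id k)
    refine ⟨fun s => bits (build (g s) (MM k (g s))), PC.toPolyTime_bits hpoly g hg, fun s => ?_⟩
    obtain ⟨hd, hb, hne⟩ := hgp s
    have hlen : 1 ≤ (g s).length := List.length_pos_iff.2 hne
    have hM := mm_pos (k := k) hlen
    have hn : (1 : ℝ) ≤ (nv k (g s) : ℝ) := by exact_mod_cast (nv_pos hlen).le
    refine ⟨_, _, mA (g s) (MM k (g s)), mb (g s) (MM k (g s)), mc (g s) (MM k (g s)),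
      fun _ => 0, input_eq _ _, start_mem hne _, zeroOne hne _, fun hs => ?_, fun hs N hN => ?_⟩
    · refine ⟨_, yes_case hd hb hne hM ((hgS s).1 hs), ?_⟩
      exact (est_upper hk1 hlen).trans (Real.rpow_le_rpow_of_exponent_le hn hkε)
    · have h2 := no_case hd hb hne (fun h => hs ((hgS s).2 h)) hN
      refine (Real.rpow_le_rpow_of_exponent_le hn (by linarith)).trans
        ((est_lower hk1 hlen).trans ?_)
      exact_mod_cast h2
  · intro ε hε R hR hap S hS
    obtain ⟨g, hg, hgp, hgS⟩ := hardPr_SAT3b S hS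
    obtain ⟨k, hk1, hkε⟩ : ∃ k : ℕ, 1 ≤ k ∧ 2 / (k : ℝ) < ε := by
      obtain ⟨k, hk⟩ := exists_nat_one_div_lt (half_pos hε)
      refine ⟨k + 1, by omega, ?_⟩
      push_cast
      rw [show (2 : ℝ) / (k + 1) = 2 * (1 / (k + 1)) by ring]
      linarith
    have hpoly : Poly (fun φ : List Cl => build φ (MM k φ)) :=
      poly_build NPC.Poly.id (upoly_MM NPC.Poly.id k)
    have h0 : PC (bits : Y644.QS.Inp → List Bool) (fun x : List Bool => x) (fun G => bits G) := by
      obtain ⟨c, p, h⟩ := (PC.id : PC (bits : Y644.QS.Inp → List Bool) bits (fun G => G))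
      exact ⟨c, p, h⟩
    have h1 : PC (fun x : List Bool => x) (fun x : List Bool => x) R :=
      H642R2.TMSim.polyTime_toPC hR
    have h2 : PC (fun x : List Bool => x) (bits : List Bool → List Bool) R :=
      PC.comp (g := fun x => x) (f := R) PC.rawIn h1
    have h3 : Poly (fun x : Y644.QS.Inp => R (bits x)) :=
      PC.comp (g := R) (f := fun G => bits G) h2 h0
    have h4 : Poly (fun φ : List Cl => unbits (List (List ℚ)) (R (bits (build φ (MM k φ))))) :=
      poly_unbits.comp (h3.comp hpoly)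
    have h5 : Poly (fun φ : List Cl => (unbits (List (List ℚ))
        (R (bits (build φ (MM k φ))))).elim false fun l => decide (l.length ≤ MM k φ)) :=
      NPC.Poly.optElim (h := fun (φ : List Cl) l => decide (l.length ≤ MM k φ)) h4
        (NPC.Poly.const _) (NPC.Poly.decide_le (NPC.Poly.length (NPC.Poly.snd NPC.Poly.id))
          (UPoly.toPoly (upoly_MM (NPC.Poly.fst NPC.Poly.id) k)))
    refine ⟨fun x => [(unbits (List (List ℚ)) (R (bits (build (g x) (MM k (g x)))))).elim false
      fun l => decide (l.length ≤ MM k (g x))], ?_, fun s => ?_⟩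
    · have h6 : PC (fun x : List Bool => x) (bits : Bool → List Bool) (fun x =>
          (unbits (List (List ℚ)) (R (bits (build (g x) (MM k (g x)))))).elim false
            fun l => decide (l.length ≤ MM k (g x))) := PC.comp (f := g) h5 hg
      exact PC.toPolyTime (PC.comp (g := fun b => [b]) PC.rawBool h6)
    · obtain ⟨hd, hb, hne⟩ := hgp s
      have hlen : 1 ≤ (g s).length := List.length_pos_iff.2 hne
      have hM := mm_pos (k := k) hlen
      obtain ⟨N, x, hN, hx, hopt⟩ := hap _ _ (mA (g s) (MM k (g s))) (mb (g s) (MM k (g s)))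
        (mc (g s) (MM k (g s))) (fun _ => 0) (start_mem hne _) (zeroOne hne _)
      have hL : (1 : ℝ) < (nv k (g s) : ℝ) := by exact_mod_cast nv_pos hlen
      beta_reduce
      rw [input_eq, hN]
      unfold output
      rw [unbits_bits, Option.elim_some, List.length_map, List.length_range, List.cons.injEq,
        decide_eq_true_iff]
      simp only [and_true]
      rw [hgS s]
      constructor
      · intro hs
        have h6 : (N : ℝ) ≤ (nv k (g s) : ℝ) ^ (1 - ε) * ((7 * (g s).length : ℕ) : ℝ) :=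
          hopt _ (yes_case hd hb hne hM hs)
        have h10 : (N : ℝ) < MM k (g s) := by
          calc (N : ℝ) ≤ (nv k (g s) : ℝ) ^ (1 - ε) * (nv k (g s) : ℝ) ^ (1 / (k : ℝ)) :=
                h6.trans (mul_le_mul_of_nonneg_left (est_upper hk1 hlen) (by positivity))
            _ = (nv k (g s) : ℝ) ^ (1 - ε + 1 / (k : ℝ)) := by
                rw [← Real.rpow_add (by linarith)]
            _ < (nv k (g s) : ℝ) ^ (1 - 1 / (k : ℝ)) := by
                refine Real.rpow_lt_rpow_of_exponent_lt hL ?_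
                have : (2 : ℝ) / k = 1 / k + 1 / k := by ring
                linarith
            _ ≤ _ := est_lower hk1 hlen
        have h11 : N < MM k (g s) := by exact_mod_cast h10
        omega
      · intro hs
        by_contra hc
        have h6 := no_case hd hb hne hc ⟨_, hx⟩
        omega

end Pool.Agent.Results.MP_4d246d_lc.ZeroOnePolytopes
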